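import Pool.Agent.Run7.h744.DD.Iface

/-!
Project DD, piece ONE: one perturbation step.
-/

set_option autoImplicit false

open MeasureTheory Set Filter Topology
open scoped InnerProductSpace

namespace Run7.h824.DD

open Run7.h744.DD
open Pool.Agent.W795.TQ (Str Univ FH)
open H772R2.NSR (Frame prim_cont)

section

variable {H K : Type} [NormedAddCommGroup H] [InnerProductSpace ℝ H]
  [NormedAddCommGroup K] [InnerProductSpace ℝ K]
  {W : Submodule ℝ (H × K)} {m : H → K} {ν T T' : ℝ} {F : ℝ → K} {u u1 : ℝ → H} {z z1 : ℝ → K}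

/-- The restriction of a strong solution to a shorter interval. -/
theorem str_mono (h : T' ≤ T) (S : Str W m ν T F u u1 z z1) : Str W m ν T' F u u1 z z1 := by
  have hm : volume.restrict (Ioc 0 T') ≤ (volume.restrict (Ioc 0 T) : Measure ℝ) :=
    Measure.restrict_mono (Ioc_subset_Ioc_right h) le_rfl
  refine ⟨fun t ht => S.mem t ⟨ht.1, ht.2.trans h⟩, ae_mono hm S.mem1, ?_,
    S.u1m.mono_measure hm, S.z1m.mono_measure hm, fun a b ha hab hb => S.pu a b ha hab (hb.trans h),
    fun a b ha hab hb => S.pz a b ha hab (hb.trans h),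
    fun p hp t ht => S.weak p hp t ⟨ht.1, ht.2.trans h⟩,
    fun t ht => S.energy t ⟨ht.1, ht.2.trans h⟩⟩
  obtain ⟨c, hc⟩ := S.bd
  exact ⟨c, ae_mono hm hc⟩

theorem str_z_cont [CompleteSpace K] (S : Str W m ν T F u u1 z z1) : ContinuousOn z (Icc 0 T) :=
  prim_cont S.z1m S.pz

theorem str_u_cont [CompleteSpace H] (S : Str W m ν T F u u1 z z1) : ContinuousOn u (Icc 0 T) :=
  prim_cont S.u1m S.pu

/-- The Lipschitz bound near the time `0`. -/
theorem str_lip [CompleteSpace H] (S : Str W m ν T F u u1 z z1) :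
    ∃ M : ℝ, 0 ≤ M ∧ ∀ t ∈ Icc 0 T, ‖u t - u 0‖ ≤ M * t := by
  obtain ⟨c, hc⟩ := S.bd
  refine ⟨|c|, abs_nonneg c, fun t ht => ?_⟩
  rw [S.pu 0 t le_rfl ht.1 ht.2]
  have h1 : ∀ᵐ s, s ∈ Ioc 0 t → ‖u1 s‖ ≤ |c| := by
    rw [← ae_restrict_iff' measurableSet_Ioc]
    have hm : volume.restrict (Ioc 0 t) ≤ (volume.restrict (Ioc 0 T) : Measure ℝ) :=
      Measure.restrict_mono (Ioc_subset_Ioc_right ht.2) le_rfl
    filter_upwards [ae_mono hm hc] with s hs
    exact hs.trans (le_abs_self c)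
  have h2 := intervalIntegral.norm_integral_le_of_norm_le_const_ae (f := u1) (a := 0) (b := t)
    (C := |c|) (by rwa [uIoc_of_le ht.1])
  rwa [sub_zero, abs_of_nonneg ht.1] at h2

/-- Monotonicity of the dissipation integral. -/
theorem int_mono_left {f : ℝ → ℝ} {a b t : ℝ} (hab : a ≤ b) (hbt : b ≤ t)
    (hf : ContinuousOn f (Icc a t)) (h0 : ∀ s, 0 ≤ f s) :
    ∫ r in b..t, f r ≤ ∫ r in a..t, f r := by
  have i1 : IntervalIntegrable f volume a b := by
    apply ContinuousOn.intervalIntegrable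
    rw [uIcc_of_le hab]
    exact hf.mono (Icc_subset_Icc_right hbt)
  have i2 : IntervalIntegrable f volume b t := by
    apply ContinuousOn.intervalIntegrable
    rw [uIcc_of_le hbt]
    exact hf.mono (Icc_subset_Icc_left hab)
  have h1 := intervalIntegral.integral_add_adjacent_intervals i1 i2
  have h2 : 0 ≤ ∫ r in a..b, f r := intervalIntegral.integral_nonneg hab fun s _ => h0 s
  linarith

end

theorem t_ONE : S_J → S_DIF → S_AP → S_CONT → S_ONE := by
  intro hJ hDIF hAP hCONT H K _ _ _ _ _ _ W m C c ν U U1 Y Y1 Fr Un hTB hν hG Q η hQ hη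
  obtain ⟨J, hJ⟩ := hJ H K W m C Fr
  obtain ⟨D, lam0, hD, hlam0, hap⟩ := hAP C c ν Q Fr.C0 Un.c0 hν hQ
  obtain ⟨δ, hδ, hcont⟩ := hCONT H K W m C c ν U U1 Y Y1 Fr Un hTB hν hG η hη
  obtain ⟨M, hM0, hM⟩ := str_lip (hG 1 one_pos)
  set A : ℝ := (D + Q + M) * (Q + Real.sqrt D + 1) with hA
  have hA0 : 0 ≤ A := by positivity
  refine ⟨max lam0 (max (1 / δ) (max (1 / η) ((A / δ) ^ 2))), le_max_of_le_left hlam0, ?_⟩
  intro lam L L1 E E1 g g1 y y1 hlam hBg hCrv hg hy
  have hl0 : lam0 ≤ lam := (le_max_left _ _).trans hlam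
  have hl1 : 1 ≤ lam := hlam0.trans hl0
  have hlp : 0 < lam := one_pos.trans_le hl1
  have hl2 : 1 / δ ≤ lam := ((le_max_left _ _).trans (le_max_right _ _)).trans hlam
  have hl3 : 1 / η ≤ lam :=
    ((le_max_left _ _).trans ((le_max_right _ _).trans (le_max_right _ _))).trans hlam
  have hl4 : (A / δ) ^ 2 ≤ lam :=
    ((le_max_right _ _).trans ((le_max_right _ _).trans (le_max_right _ _))).trans hlam
  have ht1δ : 1 / lam ≤ δ := by
    rw [div_le_iff₀ hlp]
    rw [div_le_iff₀ hδ] at hl2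
    linarith
  have ht1η : 1 / lam ≤ η := by
    rw [div_le_iff₀ hlp]
    rw [div_le_iff₀ hη] at hl3
    linarith
  have ht11 : 1 / lam ≤ 1 := by
    rw [div_le_iff₀ hlp]; linarith
  have ht1 : 0 < 1 / lam := by positivity
  have hs1 : 1 ≤ Real.sqrt lam := by
    rw [show (1 : ℝ) = Real.sqrt 1 by simp]
    exact Real.sqrt_le_sqrt hl1
  have hsp : 0 < Real.sqrt lam := one_pos.trans_le hs1
  have hss : Real.sqrt lam * Real.sqrt lam = lam := Real.mul_self_sqrt hlp.le
  have hsA : A ≤ δ * Real.sqrt lam := by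
    have h1 : A / δ ≤ Real.sqrt lam := Real.le_sqrt_of_sq_le hl4
    rw [div_le_iff₀ hδ] at h1
    linarith
  have hsD : Real.sqrt (D * lam) = Real.sqrt D * Real.sqrt lam := Real.sqrt_mul hD.le lam
  -- the bound of `y`
  have hyc : Continuous y := continuous_iff_continuousAt.2 fun t => (hCrv.dy t).continuousAt
  obtain ⟨B, hB⟩ := (isCompact_Icc.image_of_continuousOn
    (hyc.continuousOn (s := Icc (0 : ℝ) (1 / lam)))).isBounded.exists_norm_le
  have hB' : ∀ t ∈ Icc (0 : ℝ) (1 / lam), ‖y t‖ ≤ B := fun t ht => hB _ ⟨t, ht, rfl⟩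
  have hB0 : 0 ≤ B := (norm_nonneg _).trans (hB' 0 ⟨le_rfl, ht1.le⟩)
  have hN1 : (D + Q + M) / lam * (Q + Real.sqrt (D * lam) + 1) ≤ δ := by
    have h1 : Q + Real.sqrt (D * lam) + 1 ≤ (Q + Real.sqrt D + 1) * Real.sqrt lam := by
      rw [hsD]
      nlinarith
    have h2 : (D + Q + M) / lam * (Q + Real.sqrt (D * lam) + 1)
        ≤ (D + Q + M) / lam * ((Q + Real.sqrt D + 1) * Real.sqrt lam) :=
      mul_le_mul_of_nonneg_left h1 (by positivity)
    have h3 : (D + Q + M) / lam * ((Q + Real.sqrt D + 1) * Real.sqrt lam) = A / Real.sqrt lam := by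
      rw [hA]
      field_simp
      rw [Real.sq_sqrt hlp.le]
    rw [h3] at h2
    refine h2.trans ?_
    rw [div_le_iff₀ hsp]
    exact hsA
  obtain ⟨u, u1, z, z1, h0, hGl, hfin⟩ := hcont (1 / lam) (B + Real.sqrt (D * lam) + 1)
    (Q + Real.sqrt (D * lam) + 1) (g 0) (g1 0 + E 0) (y 0) ht1.le ht1δ
    (by linarith [Real.sqrt_nonneg (D * lam)]) (hCrv.mem 0)
    (by
      intro p hp
      have := hCrv.res 0 p hp
      rw [inner_add_left (g1 0) (E 0) p.1]
      linarith)
    (by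
      have := hB' 0 ⟨le_rfl, ht1.le⟩
      linarith [Real.sqrt_nonneg (D * lam)])
    (by
      intro τ u u1 z z1 hτ hS hu0
      set τ' : ℝ := min τ (1 / lam) with hτ'
      have hτ'0 : 0 < τ' := lt_min hτ ht1
      have hS' := str_mono (T' := τ') (min_le_left _ _) hS
      have hd := hDIF H K W m C ν lam Q J L L1 E E1 g g1 y y1 Fr hJ hν hBg hCrv τ' u u1 z z1
        hτ'0 hS' hu0
      have hb := hap H K W m lam J L L1 E E1 Fr Un hJ hl0 hBg τ' _ _ _ _ hτ'0 (min_le_right _ _)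
        hd (by simp only [hu0, sub_self])
      have hzz : ∀ t ∈ Icc 0 τ', ‖z t - y t‖ ≤ Real.sqrt (D * lam) := fun t ht =>
        Real.le_sqrt_of_sq_le (hb t ht).2
      refine ⟨fun t ht htl => ?_, fun hle => ?_⟩
      · have ht' : t ∈ Icc 0 τ' := ⟨ht.1, le_min ht.2 htl⟩
        have e1 := hzz t ht'
        have e2 := hB' t ⟨ht.1, htl⟩
        have e3 : ‖z t‖ ≤ ‖z t - y t‖ + ‖y t‖ := by
          have := norm_add_le (z t - y t) (y t)
          rwa [sub_add_cancel] at this
        linarith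
      · have ht' : 1 / lam ∈ Icc 0 τ' := ⟨ht1.le, le_min hle le_rfl⟩
        have e1 := hzz _ ht'
        have e2 := (hb _ ht').1
        have e3 : ‖z (1 / lam)‖ ≤ ‖z (1 / lam) - y (1 / lam)‖ + ‖y (1 / lam)‖ := by
          have := norm_add_le (z (1 / lam) - y (1 / lam)) (y (1 / lam))
          rwa [sub_add_cancel] at this
        refine ⟨by linarith, ?_⟩
        have e4 := hM (1 / lam) ⟨ht1.le, ht11⟩
        have e5 : ‖u (1 / lam) - U (1 / lam)‖ ≤ (D + Q + M) / lam := by
          have k1 : u (1 / lam) - U (1 / lam) = (u (1 / lam) - g (1 / lam))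
              + (g (1 / lam) - U 0) - (U (1 / lam) - U 0) := by abel
          rw [k1]
          refine (norm_sub_le _ _).trans ?_
          have k2 := norm_add_le (u (1 / lam) - g (1 / lam)) (g (1 / lam) - U 0)
          have k3 : (D + Q + M) / lam = D / lam + Q / lam + M * (1 / lam) := by ring
          rw [k3]
          linarith
        refine (mul_le_mul_of_nonneg_right e5 ?_).trans hN1
        linarith [Real.sqrt_nonneg (D * lam)])
  refine ⟨u, u1, z, z1, h0, hGl, fun t ht => ?_⟩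
  obtain ⟨k1, k2⟩ := hfin t (ht1η.trans ht)
  refine ⟨k1, ?_⟩
  rcases lt_or_ge 0 t with htp | htn
  · refine (int_mono_left ht1η ht ?_ fun s => by positivity).trans k2
    have c1 := str_z_cont (hGl t htp)
    have c2 := str_z_cont (hG t htp)
    exact ((c1.sub c2).norm.pow 2).mono (Icc_subset_Icc_left ht1.le)
  · exact absurd (hη.trans_le ht) (not_lt.2 htn)

end Run7.h824.DD
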