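import Pool.Agent.Run7.h744.DD.Iface
import Pool.Agent.Run7.h824.DD.ONE
import Pool.Agent.W52.TQ.Univ

/-!
Project DD, piece APX: approximation of a global strong solution by solutions from test fields.
-/

set_option autoImplicit false

open MeasureTheory Set Filter Topology
open scoped InnerProductSpace ContDiff

namespace Run7.h824.DD

open Run7.h744.DD
open H772R2.NS (E3 M3 L2V L2M graphW preW tensL IsTest jac L2sigma)
open Pool.Agent.W795.TQ (Str Univ FH S_univ)
open H772R2.NSR (Frame prim_cont exists_frame rellich_W)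

theorem pd_smooth {f : E3 → ℝ} (h : ContDiff ℝ ∞ f) (i : Fin 3) : ContDiff ℝ ∞ (pd i f) := by
  unfold pd
  exact (h.fderiv_right (m := ∞) (by simp)).clm_apply contDiff_const

theorem pd_off {f : E3 → ℝ} {K : Set E3} (hK : IsClosed K) (h : ∀ x, x ∉ K → f x = 0) (i : Fin 3) :
    ∀ x, x ∉ K → pd i f x = 0 := by
  intro x hx
  have h1 : f =ᶠ[𝓝 x] fun _ => 0 := by
    filter_upwards [hK.isOpen_compl.mem_nhds hx] with y hy
    exact h y hy
  unfold pd
  rw [h1.fderiv_eq]
  simp

theorem lapS_smooth {f : E3 → ℝ} (h : ContDiff ℝ ∞ f) : ContDiff ℝ ∞ (lapS f) := by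
  unfold lapS
  exact ContDiff.sum fun j _ => pd_smooth (pd_smooth h j) j

theorem lapS_off {f : E3 → ℝ} {K : Set E3} (hK : IsClosed K) (h : ∀ x, x ∉ K → f x = 0) :
    ∀ x, x ∉ K → lapS f x = 0 := by
  intro x hx
  unfold lapS
  exact Finset.sum_eq_zero fun j _ => pd_off hK (pd_off hK h j) j x hx

/-- The class of the residual. -/
theorem exists_res {Ω : Set E3} (ν : ℝ) {g : E3 → E3} (hg : IsTest Ω g) :
    ∃ X : L2V Ω, X =ᵐ[volume.restrict Ω] fun x => WithLp.toLp 2 fun i =>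
      ν * lapS (fun y => g y i) x - ∑ j, g x j * pd j (fun y => g y i) x
        - (0 : E3 → E3) x i + pd i (0 : E3 → ℝ) x := by
  set f : E3 → E3 := fun x => WithLp.toLp 2 fun i =>
      ν * lapS (fun y => g y i) x - ∑ j, g x j * pd j (fun y => g y i) x
        - (0 : E3 → E3) x i + pd i (0 : E3 → ℝ) x with hf
  have hc : ∀ i : Fin 3, ContDiff ℝ ∞ (fun y => g y i) := fun i => H772R2.NS.contDiff_coord hg.smooth i
  have hfc : Continuous f := by
    refine (PiLp.continuous_toLp 2 _).comp (continuous_pi fun i => ?_)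
    refine Continuous.add (Continuous.sub (Continuous.sub ?_ ?_) ?_) ?_
    · exact continuous_const.mul (lapS_smooth (hc i)).continuous
    · exact continuous_finsetSum _ fun j _ => (hc j).continuous.mul (pd_smooth (hc i) j).continuous
    · exact continuous_const
    · exact (pd_smooth contDiff_const i).continuous
  have hK : IsClosed (tsupport g) := isClosed_tsupport g
  have hg0 : ∀ i : Fin 3, ∀ x, x ∉ tsupport g → (fun y => g y i) x = 0 := by
    intro i x hx
    simp only [image_eq_zero_of_notMem_tsupport hx, PiLp.zero_apply]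
  have hf0 : ∀ x, x ∉ tsupport g → f x = 0 := by
    intro x hx
    have hz : f x = WithLp.toLp 2 0 := by
      rw [hf]
      refine congrArg (WithLp.toLp 2) (funext fun i => ?_)
      have e1 := lapS_off hK (hg0 i) x hx
      have e2 : pd i (0 : E3 → ℝ) x = 0 :=
        pd_off (K := ∅) isClosed_empty (fun _ _ => rfl) i x (notMem_empty x)
      have e3 : ∑ j, g x j * pd j (fun y => g y i) x = 0 :=
        Finset.sum_eq_zero fun j _ => by rw [pd_off hK (hg0 i) j x hx, mul_zero]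
      rw [e1, e2, e3]
      simp
    rw [hz]
    rfl
  have hs : HasCompactSupport f := HasCompactSupport.intro hg.compact hf0
  have hm : MemLp f 2 (volume.restrict Ω) := (hfc.memLp_of_hasCompactSupport hs).restrict Ω
  exact ⟨hm.toLp f, hm.coeFn_toLp⟩

theorem t_APX : S_CONT → S_WI → S_APX := by
  intro hCONT hWI Ω hΩ hb ν hν U U1 Y Y1 hG η hη
  obtain ⟨C, Fr⟩ := exists_frame hΩ hb
  obtain ⟨c, _, hc⟩ := Pool.Agent.W52.TQ.proof_univ
  obtain ⟨δ, hδ, hcont⟩ := hCONT _ _ (graphW Ω) (tensL (Ω := Ω)) C c ν U U1 Y Y1 Fr (hc Ω hΩ)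
    (fun R => rellich_W hΩ hb R) hν hG η hη
  have hmem : (U 0, Y 0) ∈ closure (preW Ω : Set (L2V Ω × L2M Ω)) := by
    have := (hG 1 one_pos).mem 0 ⟨le_rfl, zero_le_one⟩
    unfold graphW at this
    rwa [← SetLike.mem_coe, Submodule.topologicalClosure_coe] at this
  set N1 : ℝ := ‖Y 0‖ + 1 with hN1
  have hN1p : 1 ≤ N1 := by
    have := norm_nonneg (Y 0)
    linarith
  have hN1p' : 0 < N1 := one_pos.trans_le hN1p
  obtain ⟨q, hq, hd⟩ := Metric.mem_closure_iff.1 hmem (min 1 (δ / N1)) (by positivity)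
  obtain ⟨g, hg, hg1, hg2⟩ := hq
  have hd1 : ‖q.1 - U 0‖ ≤ δ / N1 := by
    have h1 : dist (U 0) q.1 ≤ dist (U 0, Y 0) q := by
      rw [Prod.dist_eq]; exact le_max_left _ _
    rw [dist_comm, dist_eq_norm] at h1
    exact h1.trans (hd.le.trans (min_le_right _ _))
  have hd2 : ‖q.2 - Y 0‖ ≤ 1 := by
    have h1 : dist (Y 0) q.2 ≤ dist (U 0, Y 0) q := by
      rw [Prod.dist_eq]; exact le_max_right _ _
    rw [dist_comm, dist_eq_norm] at h1
    exact h1.trans (hd.le.trans (min_le_left _ _))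
  have hq2 : ‖q.2‖ ≤ N1 := by
    have e : q.2 = (q.2 - Y 0) + Y 0 := by abel
    rw [e]
    refine (norm_add_le _ _).trans ?_
    rw [hN1]
    linarith
  obtain ⟨X, hX⟩ := exists_res (Ω := Ω) ν hg
  have hSm0 : Sm (0 : E3 → E3) := ⟨contDiff_const, HasCompactSupport.zero⟩
  have hSm1 : Sm (0 : E3 → ℝ) := ⟨contDiff_const, HasCompactSupport.zero⟩
  have ht0 : tsupport (0 : E3 → E3) ⊆ Ω := by
    rw [tsupport_eq_empty_iff.2 rfl]; exact empty_subset _
  have ht1 : tsupport (0 : E3 → ℝ) ⊆ Ω := by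
    rw [tsupport_eq_empty_iff.2 rfl]; exact empty_subset _
  obtain ⟨hW, hweak⟩ := hWI Ω hΩ ν g 0 0 q.1 X 0 q.2 hg hSm0 ht0 hSm1 ht1 hg1 hg2
    (Lp.coeFn_zero _ _ _) hX
  obtain ⟨u, u1, z, z1, h0, hGl, hfin⟩ := hcont 0 (N1 + 1) N1 q.1 X q.2 le_rfl hδ.le hN1p hW
    (by
      intro p hp
      have h1 := hweak p hp
      rw [inner_zero_left] at h1
      linarith)
    (by linarith)
    (by
      intro τ u u1 z z1 hτ hS hu0
      have hz0 : z 0 = q.2 := by
        have h1 := hS.mem 0 ⟨le_rfl, hτ.le⟩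
        have h2 := (graphW Ω).sub_mem h1 hW
        have h3 := Fr.uniq _ h2 (by simp [hu0])
        simpa [sub_eq_zero] using h3
      refine ⟨fun t ht ht0 => ?_, fun _ => ⟨?_, ?_⟩⟩
      · have : t = 0 := le_antisymm ht0 ht.1
        rw [this, hz0]
        linarith
      · rw [hz0]; exact hq2
      · rw [hu0]
        rwa [le_div_iff₀ hN1p'] at hd1)
  refine ⟨g, u, z, ⟨hg, ?_, u1, z1, hGl⟩, fun t ht => hfin t ht⟩
  rw [h0]
  exact hg1

end Run7.h824.DD
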