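import Pool.Agent.Run7.h744.DD.Iface
import Pool.Agent.Run7.h824.DD.ONE

/-!
Project DD, piece FIN: induction over the cells.
-/

set_option autoImplicit false

open MeasureTheory Set Filter Topology
open scoped InnerProductSpace ContDiff

namespace Run7.h824.DD

open Run7.h744.DD
open H772R2.NS (E3 M3 L2V L2M graphW tensL IsTest jac L2sigma)
open Pool.Agent.W795.TQ (Str Univ FH)
open H772R2.NSR (Frame prim_cont)

/-- Minkowski's inequality for squares. -/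
theorem mink {K : Type} [NormedAddCommGroup K] {f h : ℝ → K} {a t A B : ℝ} (hat : a ≤ t)
    (hf : ContinuousOn f (Icc a t)) (hh : ContinuousOn h (Icc a t)) (hA : 0 < A) (hB : 0 < B)
    (h1 : ∫ r in a..t, ‖f r‖ ^ 2 ≤ A ^ 2) (h2 : ∫ r in a..t, ‖h r‖ ^ 2 ≤ B ^ 2) :
    ∫ r in a..t, ‖f r + h r‖ ^ 2 ≤ (A + B) ^ 2 := by
  have i1 : IntervalIntegrable (fun r => ‖f r‖ ^ 2) volume a t := by
    apply ContinuousOn.intervalIntegrable
    rw [uIcc_of_le hat]
    exact hf.norm.pow 2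
  have i2 : IntervalIntegrable (fun r => ‖h r‖ ^ 2) volume a t := by
    apply ContinuousOn.intervalIntegrable
    rw [uIcc_of_le hat]
    exact hh.norm.pow 2
  have i3 : IntervalIntegrable (fun r => ‖f r + h r‖ ^ 2) volume a t := by
    apply ContinuousOn.intervalIntegrable
    rw [uIcc_of_le hat]
    exact (hf.add hh).norm.pow 2
  have hpt : ∀ r ∈ Icc a t, ‖f r + h r‖ ^ 2 ≤ (1 + B / A) * ‖f r‖ ^ 2 + (1 + A / B) * ‖h r‖ ^ 2 := by
    intro r _
    have e1 : ‖f r + h r‖ ^ 2 ≤ (‖f r‖ + ‖h r‖) ^ 2 :=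
      pow_le_pow_left₀ (norm_nonneg _) (norm_add_le _ _) 2
    have e2 : 0 ≤ (B * ‖f r‖ - A * ‖h r‖) ^ 2 / (A * B) := by positivity
    have e3 : (B * ‖f r‖ - A * ‖h r‖) ^ 2 / (A * B)
        = B / A * ‖f r‖ ^ 2 + A / B * ‖h r‖ ^ 2 - 2 * (‖f r‖ * ‖h r‖) := by
      field_simp
      ring
    nlinarith
  have k1 := intervalIntegral.integral_mono_on hat i3
    ((i1.const_mul (1 + B / A)).add (i2.const_mul (1 + A / B))) hpt
  rw [intervalIntegral.integral_add (i1.const_mul _) (i2.const_mul _),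
    intervalIntegral.integral_const_mul, intervalIntegral.integral_const_mul] at k1
  have k2 : (1 + B / A) * ∫ r in a..t, ‖f r‖ ^ 2 ≤ (1 + B / A) * A ^ 2 :=
    mul_le_mul_of_nonneg_left h1 (by positivity)
  have k3 : (1 + A / B) * ∫ r in a..t, ‖h r‖ ^ 2 ≤ (1 + A / B) * B ^ 2 :=
    mul_le_mul_of_nonneg_left h2 (by positivity)
  have k4 : (1 + B / A) * A ^ 2 + (1 + A / B) * B ^ 2 = (A + B) ^ 2 := by
    field_simp
    ring
  linarith

theorem good_cont {Ω : Set E3} {ν : ℝ} {g : E3 → E3} {U : ℝ → L2V Ω} {Y : ℝ → L2M Ω}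
    (h : Good Ω ν g U Y) {t : ℝ} : ContinuousOn Y (Icc 0 t) := by
  obtain ⟨_, _, U1, Y1, hG⟩ := h
  rcases lt_or_ge 0 t with ht | ht
  · exact str_z_cont (hG t ht)
  · have h1 : Icc 0 t ⊆ Icc 0 (1 : ℝ) := Icc_subset_Icc_right (by linarith)
    exact (str_z_cont (hG 1 one_pos)).mono h1

theorem glob_cont {Ω : Set E3} {ν : ℝ} {U U1 : ℝ → L2V Ω} {Y Y1 : ℝ → L2M Ω}
    (hG : Glob (graphW Ω) (tensL (Ω := Ω)) ν U U1 Y Y1) {t : ℝ} : ContinuousOn Y (Icc 0 t) := by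
  rcases lt_or_ge 0 t with ht | ht
  · exact str_z_cont (hG t ht)
  · have h1 : Icc 0 t ⊆ Icc 0 (1 : ℝ) := Icc_subset_Icc_right (by linarith)
    exact (str_z_cont (hG 1 one_pos)).mono h1

/-- The induction over the cells. -/
theorem fin_ind (hS : S_STEP) {α b : Fin 3 → E3 → ℝ} {A : E3 → ℝ} (hC : Cell α b A)
    {Ω : Set E3} (hΩ : IsOpen Ω) (hb : Bornology.IsBounded Ω) {ν : ℝ} (hν : 0 < ν)
    {U U1 : ℝ → L2V Ω} {Y Y1 : ℝ → L2M Ω} (hG : Glob (graphW Ω) (tensL (Ω := Ω)) ν U U1 Y Y1)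
    {n : ℕ} {φ : Fin n → E3 → E3} (hφ : ∀ i, Sm (φ i)) {ε η c : ℝ} (hη : 0 < η) (hηε : η ≤ ε)
    (hc : 0 < c) {g : E3 → E3} {U0 : ℝ → L2V Ω} {Y0 : ℝ → L2M Ω} (hg : Good Ω ν g U0 Y0)
    (h0 : ∀ t, ε ≤ t → ‖U0 t - U t‖ ≤ c ∧ (∫ r in ε..t, ‖Y0 r - Y r‖ ^ 2) ≤ c ^ 2) (N : ℕ) :
    ∀ (x0 : Fin N → E3) (ρ β : Fin N → ℝ) (σ : Fin N → Equiv.Perm (Fin 3)),
      (∀ j, 0 < ρ j) → (∀ j, 0 < β j) → (∀ j, Metric.closedBall (x0 j) (ρ j) ⊆ Ω) →
      ∃ (g' : E3 → E3) (U' : ℝ → L2V Ω) (Y' : ℝ → L2M Ω), Good Ω ν g' U' Y' ∧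
        (∀ i, |(∫ x, ∑ k, g' x k * φ i x k) - (∫ x, ∑ k, g x k * φ i x k)
          - ∑ j, ∫ x, ∑ k, (β j • cellV b (x0 j) (ρ j) (σ j) x : E3) k * φ i x k| ≤ N * η) ∧
        ∀ t, ε ≤ t → ‖U' t - U t‖ ≤ c + N * η ∧
          (∫ r in ε..t, ‖Y' r - Y r‖ ^ 2) ≤ (c + N * η) ^ 2 := by
  induction N with
  | zero =>
    intro x0 ρ β σ _ _ _
    refine ⟨g, U0, Y0, hg, fun i => ?_, fun t ht => ?_⟩
    · simp
    · simpa using h0 t ht
  | succ N ih =>
    intro x0 ρ β σ hρ hβ hx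
    obtain ⟨g1, V1, Z1, hg1, hm1, hd1⟩ := ih (fun j => x0 j.castSucc) (fun j => ρ j.castSucc)
      (fun j => β j.castSucc) (fun j => σ j.castSucc) (fun j => hρ _) (fun j => hβ _)
      (fun j => hx _)
    obtain ⟨g2, V2, Z2, hg2, hm2, hd2⟩ := hS α b A hC Ω hΩ hb ν hν g1 V1 Z1 hg1
      (x0 (Fin.last N)) (ρ (Fin.last N)) (β (Fin.last N)) (σ (Fin.last N)) (hρ _) (hβ _) (hx _)
      n φ hφ η hη
    refine ⟨g2, V2, Z2, hg2, fun i => ?_, fun t ht => ?_⟩
    · have e1 := abs_le.1 (hm1 i)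
      have e2 := abs_le.1 (hm2 i)
      rw [Fin.sum_univ_castSucc, abs_le]
      push_cast
      constructor
      · linarith [e1.1, e2.1]
      · linarith [e1.2, e2.2]
    · have hεp : 0 < ε := hη.trans_le hηε
      obtain ⟨a1, a2⟩ := hd1 t ht
      obtain ⟨b1, b2⟩ := hd2 t (hηε.trans ht)
      push_cast
      refine ⟨?_, ?_⟩
      · have e : V2 t - U t = (V2 t - V1 t) + (V1 t - U t) := by abel
        rw [e]
        refine (norm_add_le _ _).trans ?_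
        linarith
      · have c1 : ContinuousOn (fun r => Z1 r - Y r) (Icc 0 t) := (good_cont hg1).sub (glob_cont hG)
        have c2 : ContinuousOn (fun r => Z2 r - Z1 r) (Icc 0 t) :=
          (good_cont hg2).sub (good_cont hg1)
        have b3 : ∫ r in ε..t, ‖Z2 r - Z1 r‖ ^ 2 ≤ η ^ 2 :=
          (int_mono_left (f := fun r => ‖Z2 r - Z1 r‖ ^ 2) hηε ht
            ((c2.mono (Icc_subset_Icc_left hη.le)).norm.pow 2) fun s => by positivity).trans b2
        have hcN : 0 < c + N * η := by positivity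
        have k := mink ht (c1.mono (Icc_subset_Icc_left hεp.le))
          (c2.mono (Icc_subset_Icc_left hεp.le)) hcN hη a2 b3
        have e1 : ∫ r in ε..t, ‖Z2 r - Y r‖ ^ 2
            = ∫ r in ε..t, ‖(Z1 r - Y r) + (Z2 r - Z1 r)‖ ^ 2 := by
          refine intervalIntegral.integral_congr fun r _ => ?_
          have e : Z2 r - Y r = (Z1 r - Y r) + (Z2 r - Z1 r) := by abel
          simp only [e]
        rw [e1]
        refine k.trans (le_of_eq ?_)
        ring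

theorem l2sigma_sub {Ω : Set E3} {u v : L2V Ω} {g : E3 → E3} (hu : u ∈ L2sigma Ω)
    (hg : IsTest Ω g) (hv : v =ᵐ[volume.restrict Ω] g) : u - v ∈ L2sigma Ω := by
  unfold L2sigma at hu ⊢
  refine map_mem_closure (f := fun w : L2V Ω => w - v) (continuous_id.sub continuous_const) hu ?_
  rintro w ⟨φ, h1, h2⟩
  refine ⟨φ + (-1 : ℝ) • g, h1.add (hg.smul _), ?_⟩
  refine (Lp.coeFn_sub w v).trans ?_
  filter_upwards [h2, hv] with x a b
  simp only [Pi.sub_apply, Pi.add_apply, Pi.smul_apply, a, b]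
  module

theorem mom_int {Ω : Set E3} (v : L2V Ω) {φ : E3 → E3} (h : Sm φ) :
    Integrable (fun x => ∑ k, v x k * φ x k) (volume.restrict Ω) := by
  refine integrable_finsetSum _ fun k _ => ?_
  have h1 : MemLp (fun x => v x k) 2 (volume.restrict Ω) := by
    refine (Lp.memLp v).mono ?_ (Eventually.of_forall fun x => ?_)
    · exact (EuclideanSpace.proj (𝕜 := ℝ) k : E3 →L[ℝ] ℝ).continuous.comp_aestronglyMeasurable
        (Lp.aestronglyMeasurable v)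
    · exact PiLp.norm_apply_le (v x) k
  have h2 : MemLp (fun x => φ x k) 2 (volume.restrict Ω) := by
    have h3 : MemLp φ 2 (volume : Measure E3) := h.smooth.continuous.memLp_of_hasCompactSupport h.compact
    refine (h3.restrict Ω).mono ?_ (Eventually.of_forall fun x => ?_)
    · exact ((EuclideanSpace.proj (𝕜 := ℝ) k : E3 →L[ℝ] ℝ).continuous.comp
        h.smooth.continuous).aestronglyMeasurable
    · exact PiLp.norm_apply_le (φ x) k
  exact h1.integrable_mul h2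

theorem t_FIN : S_CELL → S_DUAL → S_STEP → S_APX → S_FIN := by
  intro hCELL hDUAL hSTEP hAPX Ω hΩ hb ν hν U U1 Y Y1 hG u0 hu0 n φ hφ hφs ε hε
  obtain ⟨α, b, A, hC⟩ := hCELL
  obtain ⟨g, V, Z, hg, hgd⟩ := hAPX Ω hΩ hb ν hν U U1 Y Y1 hG (ε / 2) (by positivity)
  have hw : u0 - V 0 ∈ L2sigma Ω := l2sigma_sub hu0 hg.1 hg.2.1
  obtain ⟨N, x0, ρ, β, σ, hρ, hβ, hx, hmom⟩ := hDUAL α b A hC Ω hΩ n φ hφ hφs _ hw
  set η : ℝ := ε / (2 * (N + 1)) with hη
  have hη0 : 0 < η := by positivity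
  have hNη : N * η ≤ ε / 2 := by
    rw [hη]
    have : (N : ℝ) * (ε / (2 * (N + 1))) = ε / 2 * (N / (N + 1)) := by
      field_simp
    rw [this]
    have h1 : (N : ℝ) / (N + 1) ≤ 1 := by
      rw [div_le_one (by positivity)]
      linarith
    have := mul_le_mul_of_nonneg_left h1 (show 0 ≤ ε / 2 by positivity)
    linarith
  have hηε : η ≤ ε := by
    rw [hη, div_le_iff₀ (by positivity)]
    have : 0 ≤ ε * N := by positivity
    nlinarith
  have h0 : ∀ t, ε ≤ t → ‖V t - U t‖ ≤ ε / 2 ∧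
      (∫ r in ε..t, ‖Z r - Y r‖ ^ 2) ≤ (ε / 2) ^ 2 := by
    intro t ht
    obtain ⟨k1, k2⟩ := hgd t (hε.le.trans ht)
    refine ⟨k1, (int_mono_left hε.le ht ?_ fun s => by positivity).trans k2⟩
    exact ((good_cont hg).sub (glob_cont hG)).norm.pow 2
  obtain ⟨g', U', Y', hg', hm', hd'⟩ := fin_ind hSTEP hC hΩ hb hν hG hφ hη0 hηε
    (show 0 < ε / 2 by positivity) hg h0 N x0 ρ β σ hρ hβ hx
  refine ⟨g', U', Y', hg', fun i => ?_, fun t ht => ?_⟩
  · have e1 := hm' i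
    have e2 := hmom i
    have z0 : ∀ x, x ∉ Ω → φ i x = 0 := fun x hx =>
      image_eq_zero_of_notMem_tsupport fun h => hx (hφs i h)
    have e3 : ∀ f : E3 → E3, ∫ x in Ω, ∑ k, f x k * φ i x k = ∫ x, ∑ k, f x k * φ i x k := by
      intro f
      refine setIntegral_eq_integral_of_forall_compl_eq_zero fun x hx => ?_
      simp [z0 x hx]
    have e4 : ∫ x in Ω, ∑ k, (u0 - V 0 : L2V Ω) x k * φ i x k
        = (∫ x in Ω, ∑ k, u0 x k * φ i x k) - ∫ x in Ω, ∑ k, g x k * φ i x k := by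
      have e5 : ∫ x in Ω, ∑ k, g x k * φ i x k = ∫ x in Ω, ∑ k, V 0 x k * φ i x k := by
        refine integral_congr_ae ?_
        filter_upwards [hg.2.1] with x hx
        simp only [hx]
      rw [e5, ← integral_sub (mom_int u0 (hφ i)) (mom_int (V 0) (hφ i))]
      refine integral_congr_ae ?_
      filter_upwards [Lp.coeFn_sub u0 (V 0)] with x hx
      rw [hx, ← Finset.sum_sub_distrib]
      refine Finset.sum_congr rfl fun k _ => ?_
      simp only [Pi.sub_apply, PiLp.sub_apply]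
      ring
    rw [e2, e4, ← e3 g', ← e3 g] at e1
    have e6 : (∫ x in Ω, ∑ k, g' x k * φ i x k) - (∫ x in Ω, ∑ k, g x k * φ i x k)
        - ((∫ x in Ω, ∑ k, u0 x k * φ i x k) - ∫ x in Ω, ∑ k, g x k * φ i x k)
        = (∫ x in Ω, ∑ k, g' x k * φ i x k) - ∫ x in Ω, ∑ k, u0 x k * φ i x k := by ring
    rw [e6] at e1
    linarith
  · obtain ⟨k1, k2⟩ := hd' t ht
    refine ⟨by linarith, k2.trans ?_⟩
    exact pow_le_pow_left₀ (by positivity) (by linarith) 2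

end Run7.h824.DD
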